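import Pool.Agent.Lib.MP_a78e1f_lc.T.Iface

/-!
# BRN: names of the branches of a tree of finite width
-/

universe u v w

open Cardinal Filter MeasureTheory

namespace Pool.Agent.Lib.MP_a78e1f_lc.H4

open Pool.Agent.Lib.MP_100a6c_lc
open Pool.Agent.Lib.MP_c5d73d_lc.F (pr)
open Pool.Agent.Lib.MP_e6fef2_lc
open Pool.Agent.Lib.MP_6d445e_gt
open Pool.Agent.Lib.MP_a78e1f_lc

theorem res_length (x : Cs) (n : ℕ) : (res x n).length = n := by
  simp [res]

theorem res_get (x : Cs) (n i : ℕ) (h : i < (res x n).length) : (res x n)[i] = x i := by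
  simp [res]

theorem res_take (x : Cs) {m n : ℕ} (h : m ≤ n) : (res x n).take m = res x m := by
  refine List.ext_getElem ?_ ?_
  · simp [res, h]
  · intro i h1 h2
    simp [res]

theorem res_prefix (x : Cs) {m n : ℕ} (h : m ≤ n) : res x m <+: res x n := by
  rw [← res_take x h]
  exact List.take_prefix _ _

theorem res_eq_iff (x y : Cs) (m : ℕ) : res x m = res y m ↔ ∀ i < m, x i = y i := by
  constructor
  · intro h i hi
    have h1 : i < (res x m).length := by rw [res_length]; exact hi
    have h2 : i < (res y m).length := by rw [res_length]; exact hi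
    rw [← res_get x m i h1, ← res_get y m i h2]
    exact List.getElem_of_eq h h1
  · intro h
    refine List.ext_getElem (by simp [res]) ?_
    intro i h1 h2
    rw [res_get, res_get]
    exact h i (by rwa [res_length] at h1)

/-- A finite set of points is separated by the initial segments of some length. -/
theorem fin_sep {S : Set Cs} (hS : S.Finite) :
    ∃ m, ∀ x ∈ S, ∀ y ∈ S, res x m = res y m → x = y := by
  have h : ∀ᶠ m in (atTop : Filter ℕ), ∀ x ∈ S, ∀ y ∈ S, res x m = res y m → x = y := by
    refine (Filter.eventually_all_finite hS).2 fun x _ => ?_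
    refine (Filter.eventually_all_finite hS).2 fun y _ => ?_
    by_cases hxy : x = y
    · exact Filter.Eventually.of_forall fun _ _ => hxy
    · obtain ⟨k, hk⟩ := Function.ne_iff.1 hxy
      refine (Filter.eventually_gt_atTop k).mono fun m hm h1 => ?_
      exact absurd ((res_eq_iff x y m).1 h1 k hm) hk
  exact h.exists

/-- A tree of finite width has finitely many branches. -/
theorem fin_branch {P : List Bool → Prop} {R : ℕ}
    (h : ∀ m, {ρ : List Bool | ρ.length = m ∧ P ρ}.encard ≤ R) :
    {x : Cs | ∀ m, P (res x m)}.Finite := by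
  classical
  by_contra hinf
  obtain ⟨t, ht, hcard⟩ := Set.Infinite.exists_subset_card_eq hinf (R + 1)
  obtain ⟨m, hm⟩ := fin_sep t.finite_toSet
  have h1 : (t.image fun x => res x m).card = R + 1 := by
    rw [Finset.card_image_of_injOn, hcard]
    intro x hx y hy hxy
    exact hm x hx y hy hxy
  have h2 : ((t.image fun x => res x m : Finset (List Bool)) : Set (List Bool)) ⊆
      {ρ : List Bool | ρ.length = m ∧ P ρ} := by
    intro ρ hρ
    obtain ⟨x, hx, rfl⟩ := Finset.mem_image.1 (Finset.mem_coe.1 hρ)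
    exact ⟨res_length x m, ht hx m⟩
  have h3 := (Set.encard_le_encard h2).trans (h m)
  rw [Set.encard_coe_eq_coe_finsetCard, h1] at h3
  have h4 : R + 1 ≤ R := by exact_mod_cast h3
  omega

/-- All initial segments of `ρ` are in `P`. -/
def Tr (P : List Bool → Prop) (ρ : List Bool) : Prop := ∀ j : Fin (ρ.length + 1), P (ρ.take j)

/-- `ρ` has extensions of all lengths in the tree. -/
def Ex (P : List Bool → Prop) (ρ : List Bool) : Prop :=
  ∀ k : ℕ, ∃ ρ' : {ρ' : List Bool // k ≤ ρ'.length ∧ ρ <+: ρ'}, Tr P ρ'.1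

theorem ex_step {P : List Bool → Prop} {ρ : List Bool} (h : Ex P ρ) : ∃ b, Ex P (ρ ++ [b]) := by
  by_contra hcon
  push Not at hcon
  have h1 : ∀ b, ∃ k : ℕ, ∀ ρ' : List Bool, k ≤ ρ'.length → (ρ ++ [b]) <+: ρ' → ¬ Tr P ρ' := by
    intro b
    by_contra h2
    push Not at h2
    refine hcon b fun k => ?_
    obtain ⟨ρ', h3, h4, h5⟩ := h2 k
    exact ⟨⟨ρ', h3, h4⟩, h5⟩
  choose k hk using h1
  obtain ⟨⟨ρ', h2, t, rfl⟩, h4⟩ := h (max (max (k true) (k false)) (ρ.length + 1))
  rcases t with _ | ⟨b, t⟩
  · have := (le_max_right _ _).trans h2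
    simp at this
  · refine hk b (ρ ++ b :: t) ?_ ⟨t, by simp⟩ h4
    refine le_trans ?_ h2
    refine le_trans ?_ (le_max_left _ _)
    cases b
    · exact le_max_right _ _
    · exact le_max_left _ _

/-- König's lemma. -/
theorem konig {P : List Bool → Prop} {ρ : List Bool} (h : Ex P ρ) :
    ∃ x : Cs, res x ρ.length = ρ ∧ ∀ m, P (res x m) := by
  choose! f hf using fun ρ (h : Ex P ρ) => ex_step h
  let s : ℕ → List Bool := fun n => Nat.rec ρ (fun _ σ => σ ++ [f σ]) n
  have hs : ∀ n, s (n + 1) = s n ++ [f (s n)] := fun n => rfl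
  have hE : ∀ n, Ex P (s n) := by
    intro n
    induction n with
    | zero => exact h
    | succ n ih => rw [hs]; exact hf _ ih
  have hl : ∀ n, (s n).length = ρ.length + n := by
    intro n
    induction n with
    | zero => rfl
    | succ n ih => rw [hs, List.length_append, ih]; simp; omega
  have hp : ∀ n k, s n <+: s (n + k) := by
    intro n k
    induction k with
    | zero => exact List.prefix_rfl
    | succ k ih => exact ih.trans (by rw [← Nat.add_assoc, hs]; exact List.prefix_append _ _)
  let x : Cs := fun n => (s (n + 1)).getD n false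
  have hx : ∀ n i (hi : i < (s n).length), (s n)[i] = x i := by
    intro n i hi
    have h1 : i < (s (i + 1)).length := by
      have h0 := hl (i + 1)
      omega
    have h2 : x i = (s (i + 1))[i] := by
      show (s (i + 1)).getD i false = _
      rw [List.getD_eq_getElem _ _ h1]
    rw [h2]
    rcases le_total n (i + 1) with h3 | h3
    · obtain ⟨e, he⟩ := Nat.exists_eq_add_of_le h3
      have h4 := hp n e
      rw [← he] at h4
      exact h4.getElem hi
    · obtain ⟨e, he⟩ := Nat.exists_eq_add_of_le h3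
      have h4 := hp (i + 1) e
      rw [← he] at h4
      exact (h4.getElem h1).symm
  have hr : ∀ n, res x (s n).length = s n := by
    intro n
    refine List.ext_getElem (res_length _ _) ?_
    intro i h1 h2
    rw [res_get, hx n i h2]
  refine ⟨x, hr 0, fun m => ?_⟩
  obtain ⟨⟨ρ', h1, h2⟩, h3⟩ := hE m 0
  have h4 : m ≤ (s m).length := by
    have h0 := hl m
    omega
  have h5 : m ≤ ρ'.length := h4.trans h2.length_le
  have h6 := h3 ⟨m, Nat.lt_succ_of_le h5⟩
  have h7 : ρ'.take m = res x m := by
    obtain ⟨t, rfl⟩ := h2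
    rw [List.take_append_of_le_length h4]
    conv_lhs => rw [← hr m]
    exact res_take x h4
  simpa [h7] using h6

section

variable {A : Type u} [CompleteBooleanAlgebra A] (v : List Bool → A)

/-- The Boolean value of `Ex`. -/
noncomputable def exv (ρ : List Bool) : A :=
  ⨅ k : ℕ, ⨆ ρ' : {ρ' : List Bool // k ≤ ρ'.length ∧ ρ <+: ρ'},
    ⨅ j : Fin (ρ'.1.length + 1), v (ρ'.1.take j)

theorem exv_iff : ∀ᶠ g in ae A, ∀ ρ, exv v ρ ∈ g ↔ Ex (fun ρ => v ρ ∈ g) ρ := by
  refine ae_all fun ρ => ?_
  have h1 := ae_iInf (A := A) fun k : ℕ => ⨆ ρ' : {ρ' : List Bool // k ≤ ρ'.length ∧ ρ <+: ρ'},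
    ⨅ j : Fin (ρ'.1.length + 1), v (ρ'.1.take j)
  have h2 := ae_all fun k : ℕ =>
    ae_iSup (A := A) fun ρ' : {ρ' : List Bool // k ≤ ρ'.length ∧ ρ <+: ρ'} =>
      ⨅ j : Fin (ρ'.1.length + 1), v (ρ'.1.take j)
  have h3 := ae_all fun ρ' : List Bool =>
    ae_iInf (A := A) fun j : Fin (ρ'.length + 1) => v (ρ'.take j)
  filter_upwards [h1, h2, h3] with g h1 h2 h3
  unfold exv
  rw [h1]
  refine forall_congr' fun k => ?_
  rw [h2 k]
  exact exists_congr fun ρ' => h3 ρ'.1

/-- The name of the branch through `τ`. -/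
noncomputable def bra (τ : List Bool) (n : ℕ) : A :=
  ⨆ ρ : {ρ : List Bool // τ <+: ρ ∧ ∃ h : n < ρ.length, ρ[n] = true}, exv v ρ.1

open Classical in
theorem bra_eq : ∀ᶠ g in ae A, ∀ (x : Cs) (m : ℕ), (∀ m, v (res x m) ∈ g) →
    (∀ y : Cs, (∀ m, v (res y m) ∈ g) → res y m = res x m → y = x) →
    x = vx (bra v (res x m)) g := by
  have h2 := ae_all fun τ : List Bool => ae_all fun n : ℕ =>
    ae_iSup (A := A) fun ρ : {ρ : List Bool // τ <+: ρ ∧ ∃ h : n < ρ.length, ρ[n] = true} =>
      exv v ρ.1
  filter_upwards [exv_iff v, h2] with g h1 h2 x m hx hu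
  funext n
  have key : bra v (res x m) n ∈ g ↔ x n = true := by
    unfold bra
    rw [h2]
    constructor
    · rintro ⟨⟨ρ, h3, h4, h5⟩, h6⟩
      obtain ⟨y, h7, h8⟩ := konig ((h1 ρ).1 h6)
      have h9 : m ≤ ρ.length := by
        have := h3.length_le
        rwa [res_length] at this
      have h10 : res y m = res x m := by
        rw [← res_take y h9, h7]
        have h11 := List.prefix_iff_eq_take.1 h3
        rw [res_length] at h11
        exact h11.symm
      have h12 := hu y h8 h10
      subst h12
      have h13 : n < (res y ρ.length).length := by rwa [res_length]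
      rw [← res_get y ρ.length n h13, List.getElem_of_eq h7 h13]
      exact h5
    · intro h3
      refine ⟨⟨res x (max m (n + 1)), res_prefix x (le_max_left _ _), ?_, ?_⟩, ?_⟩
      · rw [res_length]; exact lt_of_lt_of_le (Nat.lt_succ_self n) (le_max_right _ _)
      · rw [res_get]; exact h3
      · rw [h1]
        intro k
        refine ⟨⟨res x (max k (max m (n + 1))), ?_, res_prefix x (le_max_right _ _)⟩, fun j => ?_⟩
        · rw [res_length]; exact le_max_left _ _
        · have hj : (j : ℕ) ≤ max k (max m (n + 1)) :=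
            (Nat.le_of_lt_succ j.2).trans (res_length x _).le
          show v ((res x _).take j) ∈ g
          rw [res_take x hj]
          exact hx _
  unfold vx
  by_cases h : x n = true
  · rw [h]; exact (decide_eq_true (key.2 h)).symm
  · have h3 : x n = false := by simpa using h
    rw [h3]; exact (decide_eq_false fun h4 => h (key.1 h4)).symm

end

theorem brn : BrnStatement.{u} := by
  intro A _ v R hw
  refine ⟨fun j => bra v ((Encodable.decode (α := List Bool) j).getD []), ?_⟩
  filter_upwards [hw, bra_eq v] with g hw hb x hx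
  obtain ⟨m, hm⟩ := fin_sep (fin_branch hw)
  refine ⟨Encodable.encode (res x m), ?_⟩
  simp only [Encodable.encodek, Option.getD_some]
  exact hb x m hx fun y hy h => hm y hy x hx h

end Pool.Agent.Lib.MP_a78e1f_lc.H4
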